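import Pool.Agent.helper62.DP8.Spec

/-! # DGE: the degree into `T.erase v` -/

set_option autoImplicit false

namespace Pool.Agent.helper62.DP8

theorem DGE : DGE_stmt := by
  intro V _ H T u v
  classical
  constructor
  · intro hadj hv
    unfold dg
    have h1 : (T.erase v).filter (fun w => H.Adj u w) = (T.filter (fun w => H.Adj u w)).erase v := by
      ext w
      simp only [Finset.mem_filter, Finset.mem_erase]
      tauto
    rw [h1]
    have h2 : v ∈ T.filter (fun w => H.Adj u w) := Finset.mem_filter.mpr ⟨hv, hadj⟩
    rw [Finset.card_erase_of_mem h2]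
    have h3 : 0 < (T.filter (fun w => H.Adj u w)).card := Finset.card_pos.mpr ⟨v, h2⟩
    omega
  · intro hadj
    unfold dg
    have h1 : (T.erase v).filter (fun w => H.Adj u w) = T.filter (fun w => H.Adj u w) := by
      ext w
      simp only [Finset.mem_filter, Finset.mem_erase]
      constructor
      · rintro ⟨⟨_, h⟩, h'⟩
        exact ⟨h, h'⟩
      · rintro ⟨h, h'⟩
        refine ⟨⟨?_, h⟩, h'⟩
        rintro rfl
        exact hadj h'
    rw [h1]

end Pool.Agent.helper62.DP8
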